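import Pool.Agent.N709.ST.Stm

/-!
ST/HOMOGOF (project ST of helper709): homogeneity of the generic colouring. By helper106.
-/

set_option autoImplicit false

namespace Pool.Agent.N106.ST

open Pool.Agent.N709.ST

/-- every finite set is contained in a finite strong set -/
theorem closure_exists {s t : ℕ} {c : Finset ℕ → ℕ}
    (h1 : ∀ Y : Finset ℕ, min (Y.card : ℤ) ((t : ℤ) + 1) ≤ dl s t c Y) (X : Finset ℕ) :
    ∃ B, X ⊆ B ∧ StrM s t c B := by
  classical
  have hnn : ∀ Y, 0 ≤ dl s t c Y := fun Y =>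
    le_trans (le_min (Int.natCast_nonneg _) (by positivity)) (h1 Y)
  have hex : ∃ n : ℕ, ∃ Y, X ⊆ Y ∧ (dl s t c Y).toNat = n := ⟨_, X, Finset.Subset.refl X, rfl⟩
  obtain ⟨B, hXB, hB⟩ := Nat.find_spec hex
  refine ⟨B, hXB, fun Y hY => ?_⟩
  have h2 := Nat.find_min' hex ⟨Y, hXB.trans hY, rfl⟩
  rw [← hB] at h2
  have h3 := Int.toNat_of_nonneg (hnn B)
  have h4 := Int.toNat_of_nonneg (hnn Y)
  omega

theorem homogof : HomogOf := by
  classical
  intro hI hBF s t _ c hG C p hC hCp hp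
  obtain ⟨g1, g2, -⟩ := hG
  obtain ⟨g, hg, hg2⟩ := hBF
    (fun C f => StrM s t c C ∧ StrM s t c (C.image f) ∧ Iso t c c f C)
    (fun C f h => h.2.2.1)
    (fun C f x h => by
      obtain ⟨hC, hCf, hiso⟩ := h
      obtain ⟨B, hB1, hB2⟩ := closure_exists g1 (insert x C)
      have hCB : C ⊆ B := (Finset.subset_insert x C).trans hB1
      obtain ⟨f', h1, h2, h3⟩ := g2 B C f hCB hB2 hC hCf hiso
      exact ⟨B, f', ⟨hB2, h3, h2⟩, hCB, hB1 (Finset.mem_insert_self _ _), h1⟩)
    (fun C f x h => by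
      obtain ⟨hC, hCf, hiso⟩ := h
      obtain ⟨-, k, hk1, hk2, hk3⟩ := hI t c c f C hiso
      obtain ⟨B, hB1, hB2⟩ := closure_exists g1 (insert x (C.image f))
      have hDB : C.image f ⊆ B := (Finset.subset_insert x _).trans hB1
      obtain ⟨k', h1, h2, h3⟩ := g2 B (C.image f) k hDB hB2 hCf (by rw [hk3]; exact hC) hk1
      obtain ⟨-, f', e1, e2, e3⟩ := hI t c c k' B h2
      have hz : ∀ z ∈ C, k' (f z) = z := fun z hz => by
        rw [h1 _ (Finset.mem_image_of_mem f hz)]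
        exact hk2 z hz
      refine ⟨B.image k', f', ⟨h3, by rw [e3]; exact hB2, e1⟩, fun z hz' => ?_, ?_, fun z hz' => ?_⟩
      · exact Finset.mem_image.2 ⟨f z, hDB (Finset.mem_image_of_mem f hz'), hz z hz'⟩
      · rw [e3]
        exact hB1 (Finset.mem_insert_self _ _)
      · have h4 := e2 (f z) (hDB (Finset.mem_image_of_mem f hz'))
        rw [hz z hz'] at h4
        exact h4)
    C p ⟨hC, hCp, hp⟩
  refine ⟨g, hg, fun S S' hS hS' => ?_⟩
  obtain ⟨C', f, ⟨-, -, hiso⟩, hX, hf⟩ := hg2 (S ∪ S')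
  have hSC : S ⊆ C' := Finset.subset_union_left.trans hX
  have hSC' : S' ⊆ C' := Finset.subset_union_right.trans hX
  have e1 : S.image g = S.image f := Finset.image_congr fun x hx => hf x (hSC hx)
  have e2 : S'.image g = S'.image f := Finset.image_congr fun x hx => hf x (hSC' hx)
  rw [e1, e2]
  exact hiso.2 S hSC S' hSC' hS hS'

end Pool.Agent.N106.ST
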